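import Pool.Agent.Q248.L72.Sum

/-!
# Generation by the vectors of norm 12
-/

set_option autoImplicit false

open Complex Filter Topology

namespace Pool.Agent.Q248.L72

variable {L : Submodule ℤ V}

/-- inner products are integers -/
theorem int_inner (h : TypeII L) {x y : V} (hx : x ∈ L) (hy : y ∈ L) :
    ∃ k : ℤ, inner ℝ x y = (k : ℝ) := (h.dual y).1 hy x hx

/-- the sum of an even polynomial over a shell -/
theorem sum_poly (hD : S_DES) (h : TypeII L) (h8 : ∀ x ∈ L, x ≠ 0 → (8 : ℝ) ≤ inner ℝ x x)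
    (m : ℝ) (hf : (shell L m).Finite) (w : V) (a1 a2 a3 a4 a5 : ℝ) :
    ∑ x ∈ hf.toFinset, (a1 * (inner ℝ w x : ℝ) ^ 2 + a2 * (inner ℝ w x : ℝ) ^ 4 +
      a3 * (inner ℝ w x : ℝ) ^ 6 + a4 * (inner ℝ w x : ℝ) ^ 8 + a5 * (inner ℝ w x : ℝ) ^ 10) =
    hf.toFinset.card * (a1 * ((m * inner ℝ w w) * (1 / 72)) +
      a2 * ((m * inner ℝ w w) ^ 2 * (3 / (72 * 74))) +
      a3 * ((m * inner ℝ w w) ^ 3 * (15 / (72 * 74 * 76))) +
      a4 * ((m * inner ℝ w w) ^ 4 * (105 / (72 * 74 * 76 * 78))) +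
      a5 * ((m * inner ℝ w w) ^ 5 * (945 / (72 * 74 * 76 * 78 * 80)))) := by
  have c1 : ∏ i ∈ Finset.range 1, ((2 * (i : ℝ) + 1) / (72 + 2 * (i : ℝ))) = 1 / 72 := by
    norm_num [Finset.prod_range_succ]
  have c2 : ∏ i ∈ Finset.range 2, ((2 * (i : ℝ) + 1) / (72 + 2 * (i : ℝ))) = 3 / (72 * 74) := by
    norm_num [Finset.prod_range_succ]
  have c3 : ∏ i ∈ Finset.range 3, ((2 * (i : ℝ) + 1) / (72 + 2 * (i : ℝ))) =
      15 / (72 * 74 * 76) := by
    norm_num [Finset.prod_range_succ]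
  have c4 : ∏ i ∈ Finset.range 4, ((2 * (i : ℝ) + 1) / (72 + 2 * (i : ℝ))) =
      105 / (72 * 74 * 76 * 78) := by
    norm_num [Finset.prod_range_succ]
  have c5 : ∏ i ∈ Finset.range 5, ((2 * (i : ℝ) + 1) / (72 + 2 * (i : ℝ))) =
      945 / (72 * 74 * 76 * 78 * 80) := by
    norm_num [Finset.prod_range_succ]
  have h1 : ∑ x ∈ hf.toFinset, (inner ℝ w x : ℝ) ^ 2 = _ := hD L h h8 m hf 1 (by norm_num) w
  have h2 : ∑ x ∈ hf.toFinset, (inner ℝ w x : ℝ) ^ 4 = _ := hD L h h8 m hf 2 (by norm_num) w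
  have h3 : ∑ x ∈ hf.toFinset, (inner ℝ w x : ℝ) ^ 6 = _ := hD L h h8 m hf 3 (by norm_num) w
  have h4 : ∑ x ∈ hf.toFinset, (inner ℝ w x : ℝ) ^ 8 = _ := hD L h h8 m hf 4 (by norm_num) w
  have h5 : ∑ x ∈ hf.toFinset, (inner ℝ w x : ℝ) ^ 10 = _ := hD L h h8 m hf 5 (by norm_num) w
  rw [c1] at h1
  rw [c2] at h2
  rw [c3] at h3
  rw [c4] at h4
  rw [c5] at h5
  simp only [Finset.sum_add_distrib, ← Finset.mul_sum]
  rw [h1, h2, h3, h4, h5]
  ring

/-- the minimal vectors generate -/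
theorem gen8 (hD : S_DES) (h : TypeII L) (h8 : ∀ x ∈ L, x ≠ 0 → (8 : ℝ) ≤ inner ℝ x x)
    (hex : ∃ x ∈ L, (inner ℝ x x : ℝ) = 8) : Submodule.span ℤ (shell L 8) = L := by
  have hf := t_FIN L h 8
  obtain ⟨x0, hx0, hx08⟩ := hex
  have hcard : 0 < (hf.toFinset.card : ℝ) := by
    have : 0 < hf.toFinset.card := Finset.card_pos.2 ⟨x0, hf.mem_toFinset.2 ⟨hx0, hx08⟩⟩
    exact_mod_cast this
  refine le_antisymm (Submodule.span_le.2 fun x hx => hx.1) ?_
  by_contra hne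
  rw [SetLike.not_le_iff_exists] at hne
  set M := Submodule.span ℤ (shell L 8) with hM
  have hML : ∀ x ∈ shell L 8, x ∈ M := fun x hx => Submodule.subset_span hx
  -- a shortest vector outside
  have hex2 : ∃ n : ℕ, ∃ w ∈ L, w ∉ M ∧ (inner ℝ w w : ℝ) = 2 * (n : ℝ) := by
    obtain ⟨w, hw, hwM⟩ := hne
    obtain ⟨k, hk⟩ := h.even w hw
    have hk0 : 0 ≤ k := by
      have : (0 : ℝ) ≤ inner ℝ w w := real_inner_self_nonneg
      rw [hk] at this
      have : (0 : ℝ) ≤ (k : ℝ) := by linarith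
      exact_mod_cast this
    refine ⟨k.toNat, w, hw, hwM, ?_⟩
    rw [hk]
    congr 1
    exact_mod_cast (Int.toNat_of_nonneg hk0).symm
  classical
  obtain ⟨w, hw, hwM, hwn⟩ := Nat.find_spec hex2
  have hmin : ∀ y ∈ L, y ∉ M → (inner ℝ w w : ℝ) ≤ inner ℝ y y := by
    intro y hy hyM
    obtain ⟨k, hk⟩ := h.even y hy
    have hk0 : 0 ≤ k := by
      have : (0 : ℝ) ≤ inner ℝ y y := real_inner_self_nonneg
      rw [hk] at this
      have : (0 : ℝ) ≤ (k : ℝ) := by linarith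
      exact_mod_cast this
    have h1 : Nat.find hex2 ≤ k.toNat := by
      apply Nat.find_min'
      refine ⟨y, hy, hyM, ?_⟩
      rw [hk]
      congr 1
      exact_mod_cast (Int.toNat_of_nonneg hk0).symm
    rw [hwn, hk]
    have h2 : ((Nat.find hex2 : ℕ) : ℝ) ≤ (k : ℝ) := by
      have : ((Nat.find hex2 : ℕ) : ℤ) ≤ k := by
        rw [← Int.toNat_of_nonneg hk0]
        exact_mod_cast h1
      exact_mod_cast this
    linarith
  have hw0 : w ≠ 0 := fun h0 => hwM (by rw [h0]; exact M.zero_mem)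
  have hw8 := h8 w hw hw0
  have hw10 : (10 : ℝ) ≤ inner ℝ w w := by
    have hne8 : (inner ℝ w w : ℝ) ≠ 8 := fun h0 => hwM (hML w ⟨hw, h0⟩)
    rw [hwn] at hw8 hne8 ⊢
    have h1 : 4 ≤ Nat.find hex2 := by
      have : (4 : ℝ) ≤ (Nat.find hex2 : ℕ) := by linarith
      exact_mod_cast this
    have h2 : Nat.find hex2 ≠ 4 := by
      intro h0
      apply hne8
      rw [h0]
      norm_num
    have h3 : 5 ≤ Nat.find hex2 := by omega
    have h4 : (5 : ℝ) ≤ (Nat.find hex2 : ℕ) := by exact_mod_cast h3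
    linarith
  have hzero : ∀ x ∈ hf.toFinset, (576 * (inner ℝ w x : ℝ) ^ 2 + (-820) * (inner ℝ w x : ℝ) ^ 4 +
      273 * (inner ℝ w x : ℝ) ^ 6 + (-30) * (inner ℝ w x : ℝ) ^ 8 +
      1 * (inner ℝ w x : ℝ) ^ 10) = 0 := by
    intro x hx
    have hxs := hf.mem_toFinset.1 hx
    have hxM := hML x hxs
    obtain ⟨k, hk⟩ := int_inner h hw hxs.1
    have hm1 := hmin (w - x) (L.sub_mem hw hxs.1) (fun h0 => hwM (by
      have := M.add_mem h0 hxM
      rwa [sub_add_cancel] at this))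
    have hm2 := hmin (w + x) (L.add_mem hw hxs.1) (fun h0 => hwM (by
      have := M.sub_mem h0 hxM
      rwa [add_sub_cancel_right] at this))
    rw [real_inner_sub_sub_self, hxs.2, hk] at hm1
    rw [real_inner_add_add_self, hxs.2, hk] at hm2
    have hk1 : k ≤ 4 := by
      have : (k : ℝ) ≤ 4 := by linarith
      exact_mod_cast this
    have hk2 : -4 ≤ k := by
      have : (-4 : ℝ) ≤ (k : ℝ) := by linarith
      exact_mod_cast this
    rw [hk]
    interval_cases k <;> norm_num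
  have hs := sum_poly hD h h8 8 hf w 576 (-820) 273 (-30) 1
  rw [Finset.sum_eq_zero hzero] at hs
  have hpos : 0 < (576 * ((8 * inner ℝ w w) * (1 / 72)) +
      (-820) * ((8 * inner ℝ w w) ^ 2 * (3 / (72 * 74))) +
      273 * ((8 * inner ℝ w w) ^ 3 * (15 / (72 * 74 * 76))) +
      (-30) * ((8 * inner ℝ w w) ^ 4 * (105 / (72 * 74 * 76 * 78))) +
      1 * ((8 * inner ℝ w w) ^ 5 * (945 / (72 * 74 * 76 * 78 * 80))) : ℝ) := by
    obtain ⟨s, hs0⟩ : ∃ s : ℝ, s = inner ℝ w w - 10 := ⟨_, rfl⟩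
    have hs1 : 0 ≤ s := by linarith
    have hw1 : (inner ℝ w w : ℝ) = s + 10 := by linarith
    rw [hw1]
    ring_nf
    positivity
  have := mul_pos hcard hpos
  linarith

/-- there are vectors of norm 12 -/
theorem nonempty12 (hD : S_DES) (h : TypeII L) (h8 : ∀ x ∈ L, x ≠ 0 → (8 : ℝ) ≤ inner ℝ x x)
    (hex : ∃ x ∈ L, (inner ℝ x x : ℝ) = 8) : (shell L 12).Nonempty := by
  have hf := t_FIN L h 8
  obtain ⟨w, hw, hw8⟩ := hex
  have hcard : 0 < (hf.toFinset.card : ℝ) := by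
    have : 0 < hf.toFinset.card := Finset.card_pos.2 ⟨w, hf.mem_toFinset.2 ⟨hw, hw8⟩⟩
    exact_mod_cast this
  by_contra hne
  rw [Set.not_nonempty_iff_eq_empty] at hne
  have hzero : ∀ x ∈ hf.toFinset, (-9216 * (inner ℝ w x : ℝ) ^ 2 + (10960) * (inner ℝ w x : ℝ) ^ 4 +
      (-1833) * (inner ℝ w x : ℝ) ^ 6 + 90 * (inner ℝ w x : ℝ) ^ 8 +
      (-1) * (inner ℝ w x : ℝ) ^ 10) = 0 := by
    intro x hx
    have hxs := hf.mem_toFinset.1 hx
    obtain ⟨k, hk⟩ := int_inner h hw hxs.1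
    by_cases h1 : w = x
    · rw [← h1, hw8]
      norm_num
    by_cases h2 : w = -x
    · rw [h2, inner_neg_left, hxs.2]
      norm_num
    have hm1 := h8 (w - x) (L.sub_mem hw hxs.1) (sub_ne_zero.2 h1)
    have hm2 := h8 (w + x) (L.add_mem hw hxs.1) (fun h0 => h2 (eq_neg_of_add_eq_zero_left h0))
    rw [real_inner_sub_sub_self, hxs.2, hk, hw8] at hm1
    rw [real_inner_add_add_self, hxs.2, hk, hw8] at hm2
    have hk1 : k ≤ 4 := by
      have : (k : ℝ) ≤ 4 := by linarith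
      exact_mod_cast this
    have hk2 : -4 ≤ k := by
      have : (-4 : ℝ) ≤ (k : ℝ) := by linarith
      exact_mod_cast this
    have hk3 : k ≠ 2 := by
      intro h0
      have : w - x ∈ shell L 12 := by
        refine ⟨L.sub_mem hw hxs.1, ?_⟩
        rw [real_inner_sub_sub_self, hxs.2, hk, hw8, h0]
        norm_num
      rw [hne] at this
      exact this
    have hk4 : k ≠ -2 := by
      intro h0
      have : w + x ∈ shell L 12 := by
        refine ⟨L.add_mem hw hxs.1, ?_⟩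
        rw [real_inner_add_add_self, hxs.2, hk, hw8, h0]
        norm_num
      rw [hne] at this
      exact this
    rw [hk]
    interval_cases k <;> first | exact absurd rfl hk3 | exact absurd rfl hk4 | norm_num
  have hs := sum_poly hD h h8 8 hf w (-9216) 10960 (-1833) 90 (-1)
  rw [Finset.sum_eq_zero hzero, hw8] at hs
  have hpos : 0 < ((-9216) * ((8 * 8) * (1 / 72)) + 10960 * ((8 * 8) ^ 2 * (3 / (72 * 74))) +
      (-1833) * ((8 * 8) ^ 3 * (15 / (72 * 74 * 76))) +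
      90 * ((8 * 8) ^ 4 * (105 / (72 * 74 * 76 * 78))) +
      (-1) * ((8 * 8) ^ 5 * (945 / (72 * 74 * 76 * 78 * 80))) : ℝ) := by norm_num
  have := mul_pos hcard hpos
  linarith

theorem gen12 (hD : S_DES) (h : TypeII L) (h8 : ∀ x ∈ L, x ≠ 0 → (8 : ℝ) ≤ inner ℝ x x)
    (hex : ∃ x ∈ L, (inner ℝ x x : ℝ) = 8) : Submodule.span ℤ (shell L 12) = L := by
  refine le_antisymm (Submodule.span_le.2 fun x hx => hx.1) ?_
  conv_lhs => rw [← gen8 hD h h8 hex]
  rw [Submodule.span_le]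
  intro w hw
  have hf := t_FIN L h 12
  obtain ⟨x0, hx0⟩ := nonempty12 hD h h8 hex
  have hcard : 0 < (hf.toFinset.card : ℝ) := by
    have : 0 < hf.toFinset.card := Finset.card_pos.2 ⟨x0, hf.mem_toFinset.2 hx0⟩
    exact_mod_cast this
  have hs := sum_poly hD h h8 12 hf w 900 (-1261) 399 (-39) 1
  rw [hw.2] at hs
  have hneg : ∑ x ∈ hf.toFinset, (900 * (inner ℝ w x : ℝ) ^ 2 + (-1261) * (inner ℝ w x : ℝ) ^ 4 +
      399 * (inner ℝ w x : ℝ) ^ 6 + (-39) * (inner ℝ w x : ℝ) ^ 8 +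
      1 * (inner ℝ w x : ℝ) ^ 10) < 0 := by
    rw [hs]
    refine mul_neg_of_pos_of_neg hcard ?_
    norm_num
  obtain ⟨x, hx, hxneg⟩ : ∃ x ∈ hf.toFinset, (900 * (inner ℝ w x : ℝ) ^ 2 +
      (-1261) * (inner ℝ w x : ℝ) ^ 4 + 399 * (inner ℝ w x : ℝ) ^ 6 +
      (-39) * (inner ℝ w x : ℝ) ^ 8 + 1 * (inner ℝ w x : ℝ) ^ 10) < 0 := by
    by_contra hcon
    push Not at hcon
    exact absurd (Finset.sum_nonneg hcon) (not_le.2 hneg)
  have hxs := hf.mem_toFinset.1 hx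
  obtain ⟨k, hk⟩ := int_inner h hw.1 hxs.1
  have h1 : w ≠ x := by
    intro h0
    have h2 := hw.2
    rw [h0, hxs.2] at h2
    norm_num at h2
  have h2 : w ≠ -x := by
    intro h0
    have h2 := hw.2
    rw [h0, inner_neg_neg, hxs.2] at h2
    norm_num at h2
  have hm1 := h8 (w - x) (L.sub_mem hw.1 hxs.1) (sub_ne_zero.2 h1)
  have hm2 := h8 (w + x) (L.add_mem hw.1 hxs.1) (fun h0 => h2 (eq_neg_of_add_eq_zero_left h0))
  rw [real_inner_sub_sub_self, hxs.2, hk, hw.2] at hm1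
  rw [real_inner_add_add_self, hxs.2, hk, hw.2] at hm2
  have hk1 : k ≤ 6 := by
    have : (k : ℝ) ≤ 6 := by linarith
    exact_mod_cast this
  have hk2 : -6 ≤ k := by
    have : (-6 : ℝ) ≤ (k : ℝ) := by linarith
    exact_mod_cast this
  rw [hk] at hxneg
  have hk3 : k = 4 ∨ k = -4 := by
    interval_cases k <;> first | (left; rfl) | (right; rfl) | (exfalso; norm_num at hxneg)
  rcases hk3 with hk3 | hk3
  · have hy : w - x ∈ shell L 12 := by
      refine ⟨L.sub_mem hw.1 hxs.1, ?_⟩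
      rw [real_inner_sub_sub_self, hxs.2, hk, hw.2, hk3]
      norm_num
    have h3 := (Submodule.span ℤ (shell L 12)).add_mem (Submodule.subset_span hy)
      (Submodule.subset_span hxs)
    rwa [sub_add_cancel] at h3
  · have hy : w + x ∈ shell L 12 := by
      refine ⟨L.add_mem hw.1 hxs.1, ?_⟩
      rw [real_inner_add_add_self, hxs.2, hk, hw.2, hk3]
      norm_num
    have h3 := (Submodule.span ℤ (shell L 12)).sub_mem (Submodule.subset_span hy)
      (Submodule.subset_span hxs)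
    rwa [add_sub_cancel_right] at h3

end Pool.Agent.Q248.L72
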