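import Pool.Agent.Q248.L72.Des
import Pool.Agent.Q248.L72.Fin
import Pool.Agent.Q98.L72.COEF
import Pool.Agent.Q91.L72.INV
import Pool.Agent.Q91.L72.STURM

/-!
# Every extremal even unimodular lattice of rank 72 is generated by its vectors of norm 12
-/

set_option autoImplicit false

namespace Pool.Agent.Q248.L72

theorem t_all : S_DES := t_DES Pool.Agent.Q91.L72.t_INV Pool.Agent.Q91.L72.t_STURM (t_COEF t_SUM)

theorem main (L : Submodule ℤ V) (h : TypeII L) (h8 : ∀ x ∈ L, x ≠ 0 → (8 : ℝ) ≤ inner ℝ x x)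
    (hex : ∃ x ∈ L, (inner ℝ x x : ℝ) = 8) :
    Submodule.span ℤ {x | x ∈ L ∧ inner ℝ x x = (12 : ℝ)} = L :=
  gen12 t_all h h8 hex

end Pool.Agent.Q248.L72
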