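import Pool.Agent.Q248.L72.Stm

/-!
# Moments of a finite set on a sphere which do not depend on the direction
-/

set_option autoImplicit false

namespace Pool.Agent.Q248.L72

theorem coeff_two {α : Type*} (X : Finset α) (a b : α → ℝ) (C : ℝ) (j : ℕ)
    (h : ∀ t : ℝ, ∑ x ∈ X, (a x + t * b x) ^ (2 * j + 2) = C * (1 + t ^ 2) ^ (j + 1)) :
    (2 * (j : ℝ) + 1) * ∑ x ∈ X, a x ^ (2 * j) * b x ^ 2 = C := by
  have hp : (∑ x ∈ X, (Polynomial.C (a x) + Polynomial.X * Polynomial.C (b x)) ^ (2 * j + 2)) =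
      Polynomial.C C * (1 + Polynomial.X ^ 2) ^ (j + 1) := by
    apply Polynomial.funext
    intro t
    have := h t
    simp only [Polynomial.eval_finsetSum, Polynomial.eval_pow, Polynomial.eval_add,
      Polynomial.eval_mul, Polynomial.eval_C, Polynomial.eval_X, Polynomial.eval_one]
    exact this
  have h2 := congrArg (fun p => (Polynomial.derivative (Polynomial.derivative p)).eval 0) hp
  have e1 : ∀ x, (Polynomial.derivative (Polynomial.derivative
      ((Polynomial.C (a x) + Polynomial.X * Polynomial.C (b x)) ^ (2 * j + 2)))).eval 0 =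
      (2 * (j : ℝ) + 2) * (2 * (j : ℝ) + 1) * (a x ^ (2 * j) * b x ^ 2) := by
    intro x
    simp [Polynomial.derivative_pow, Polynomial.derivative_mul]
    ring
  have e2 : (Polynomial.derivative (Polynomial.derivative
      (Polynomial.C C * (1 + Polynomial.X ^ 2) ^ (j + 1)))).eval 0 =
      C * (2 * ((j : ℝ) + 1)) := by
    rw [Polynomial.derivative_C_mul, Polynomial.derivative_C_mul, Polynomial.eval_mul,
      Polynomial.eval_C]
    congr 1
    simp [Polynomial.derivative_pow, Polynomial.derivative_mul]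
    ring_nf
    try simp
  simp only [Polynomial.derivative_sum, Polynomial.eval_finsetSum] at h2
  rw [Finset.sum_congr rfl (fun x _ => e1 x), e2, ← Finset.mul_sum] at h2
  have hj : (0 : ℝ) < 2 * (j : ℝ) + 2 := by positivity
  have h3 : (2 * (j : ℝ) + 2) * ((2 * (j : ℝ) + 1) * ∑ x ∈ X, a x ^ (2 * j) * b x ^ 2) =
      (2 * (j : ℝ) + 2) * C := by linarith
  exact mul_left_cancel₀ hj.ne' h3

theorem inner_e (i : Fin 72) (x : V) :
    (inner ℝ (EuclideanSpace.single i (1 : ℝ)) x : ℝ) = x i := by
  rw [EuclideanSpace.inner_single_left]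
  simp

theorem t_MOM : S_MOM := by
  intro X m hX hM
  set u : V := EuclideanSpace.single 0 1 with hu
  set Cf : ℕ → ℝ := fun j => ∑ x ∈ X, (inner ℝ u x : ℝ) ^ (2 * j) with hCf
  have hu1 : ‖u‖ = 1 := by simp [hu]
  have hMC : ∀ j, j ≤ 5 → ∀ w : V, ∑ x ∈ X, (inner ℝ w x : ℝ) ^ (2 * j) =
      Cf j * (inner ℝ w w) ^ j := by
    intro j hj w
    rw [hM (2 * j) (by omega) w (‖w‖ • u) (by rw [norm_smul, hu1]; simp)]
    have : ∀ x, (inner ℝ (‖w‖ • u) x : ℝ) ^ (2 * j) =
        (inner ℝ u x : ℝ) ^ (2 * j) * (inner ℝ w w) ^ j := by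
      intro x
      rw [real_inner_smul_left, mul_pow, real_inner_self_eq_norm_sq, ← pow_mul]
      ring
    rw [Finset.sum_congr rfl fun x _ => this x, ← Finset.sum_mul]
  have hstep : ∀ j, j + 1 ≤ 5 →
      Cf (j + 1) = Cf j * m * ((2 * (j : ℝ) + 1) / (72 + 2 * (j : ℝ))) := by
    intro j hj
    have hS : ∀ i : Fin 72, i ≠ 0 →
        (2 * (j : ℝ) + 1) * ∑ x ∈ X, (inner ℝ u x : ℝ) ^ (2 * j) * (x i) ^ 2 = Cf (j + 1) := by
      intro i hi
      apply coeff_two
      intro t
      have h1 := hMC (j + 1) hj (u + t • EuclideanSpace.single i 1)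
      have h2 : (inner ℝ (u + t • EuclideanSpace.single i (1 : ℝ))
          (u + t • EuclideanSpace.single i (1 : ℝ)) : ℝ) = 1 + t ^ 2 := by
        have h3 : (inner ℝ u (EuclideanSpace.single i (1 : ℝ)) : ℝ) = 0 := by
          rw [hu, inner_e]
          simp [hi]
        have h3' : (inner ℝ (EuclideanSpace.single i (1 : ℝ)) u : ℝ) = 0 := by
          rw [real_inner_comm, h3]
        have h3a : (inner ℝ (EuclideanSpace.single i (1 : ℝ))
            (EuclideanSpace.single i (1 : ℝ)) : ℝ) = 1 := by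
          rw [inner_e]
          simp
        have h3b : (inner ℝ u u : ℝ) = 1 := by
          rw [real_inner_self_eq_norm_sq, hu1]
          norm_num
        rw [inner_add_left, inner_add_right, inner_add_right, real_inner_smul_left,
          real_inner_smul_left, real_inner_smul_right, real_inner_smul_right, h3, h3', h3a, h3b]
        ring
      rw [h2] at h1
      rw [← h1]
      refine Finset.sum_congr rfl fun x _ => ?_
      rw [inner_add_left, real_inner_smul_left, inner_e i x]
      rfl
    have h0 : ∑ x ∈ X, (inner ℝ u x : ℝ) ^ (2 * j) * (x 0) ^ 2 = Cf (j + 1) := by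
      refine Finset.sum_congr rfl fun x _ => ?_
      have : (inner ℝ u x : ℝ) = x 0 := by
        rw [hu, inner_e]
      rw [this]
      ring
    have hsum : ∑ i : Fin 72, ∑ x ∈ X, (inner ℝ u x : ℝ) ^ (2 * j) * (x i) ^ 2 = Cf j * m := by
      rw [Finset.sum_comm]
      simp_rw [← Finset.mul_sum]
      rw [hCf]
      simp only
      rw [Finset.sum_mul]
      refine Finset.sum_congr rfl fun x hx => ?_
      congr 1
      rw [← hX x hx, real_inner_self_eq_norm_sq, EuclideanSpace.norm_sq_eq]
      simp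
    have hpos : (0 : ℝ) < 2 * (j : ℝ) + 1 := by positivity
    have hpos2 : (0 : ℝ) < 72 + 2 * (j : ℝ) := by positivity
    rw [Fin.sum_univ_succ, h0] at hsum
    have h4 : ∀ i : Fin 71, ∑ x ∈ X, (inner ℝ u x : ℝ) ^ (2 * j) * (x i.succ) ^ 2 =
        Cf (j + 1) / (2 * (j : ℝ) + 1) := by
      intro i
      rw [eq_div_iff hpos.ne', mul_comm]
      exact hS i.succ (Fin.succ_ne_zero i)
    rw [Finset.sum_congr rfl fun i _ => h4 i] at hsum
    simp only [Finset.sum_const, Finset.card_univ, Fintype.card_fin, nsmul_eq_mul] at hsum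
    rw [← hsum]
    field_simp
    push_cast
    ring
  have hall : ∀ j, j ≤ 5 → Cf j = X.card * m ^ j *
      ∏ i ∈ Finset.range j, ((2 * (i : ℝ) + 1) / (72 + 2 * (i : ℝ))) := by
    intro j
    induction j with
    | zero => intro _; simp [hCf]
    | succ j ih =>
      intro hj
      rw [hstep j hj, ih (by omega), Finset.prod_range_succ]
      ring
  intro j hj w
  rw [hMC j hj w, hall j hj, mul_pow]
  ring

end Pool.Agent.Q248.L72
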