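import Pool.Agent.Q248.L72.FE
import Pool.Agent.Q248.L72.Mom

/-!
# The shells of an extremal even unimodular lattice of rank 72 are spherical 11-designs
-/

set_option autoImplicit false

open Complex Filter Topology

namespace Pool.Agent.Q248.L72

variable {L : Submodule ℤ V}

theorem DD_diff (h : TypeII L) {w w' : V} (hw : ‖w‖ = ‖w'‖) (K : ℕ) :
    DifferentiableOn ℂ (DD L w w' K) {τ : ℂ | 0 < τ.im} := by
  intro τ hτ
  have hτ1 : 0 < τ.im := hτ
  have hopen : IsOpen {σ : ℂ | τ.im / 2 < σ.im} := isOpen_lt continuous_const Complex.continuous_im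
  have hmem : {σ : ℂ | τ.im / 2 < σ.im} ∈ 𝓝 τ := by
    refine hopen.mem_nhds ?_
    show τ.im / 2 < τ.im
    linarith
  have hd : DifferentiableOn ℂ (DD L w w' K) {σ : ℂ | τ.im / 2 < σ.im} := by
    have hu := (t_SUM L h (Real.pi * (τ.im / 2)) ‖w‖ (by positivity)).mul_left
      (2 * (K.factorial : ℝ))
    refine differentiableOn_tsum_of_summable_norm hu (fun x => ?_) hopen fun x σ hσ => ?_
    · fun_prop
    · have hσ1 : τ.im / 2 < σ.im := hσ
      show ‖(((inner ℝ w (x : V) : ℝ) : ℂ) ^ K - ((inner ℝ w' (x : V) : ℝ) : ℂ) ^ K) *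
        qt σ (x : V)‖ ≤ _
      rw [norm_mul, norm_qt, Real.exp_sub, div_eq_mul_inv, ← Real.exp_neg, ← mul_assoc]
      refine mul_le_mul (diff_bound hw K (x : V)) ?_ (Real.exp_pos _).le (by positivity)
      apply Real.exp_le_exp.2
      have : 0 ≤ Real.pi * ‖(x : V)‖ ^ 2 := by positivity
      nlinarith
  exact (hd.differentiableAt hmem).differentiableWithinAt

theorem qt_add_one (h : TypeII L) (τ : ℂ) (x : L) : qt (τ + 1) (x : V) = qt τ (x : V) := by
  obtain ⟨k, hk⟩ := h.even x x.2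
  unfold qt
  rw [hk, show Real.pi * I * (τ + 1) * ((2 * (k : ℝ) : ℝ) : ℂ) =
    Real.pi * I * τ * ((2 * (k : ℝ) : ℝ) : ℂ) + (k : ℂ) * (2 * Real.pi * I) by push_cast; ring,
    Complex.exp_add, Complex.exp_int_mul_two_pi_mul_I, mul_one]

theorem DD_add_one (h : TypeII L) (w w' : V) (K : ℕ) (τ : ℂ) :
    DD L w w' K (τ + 1) = DD L w w' K τ := by
  rw [DD_eq, DD_eq]
  refine tsum_congr fun x => ?_
  rw [qt_add_one h]

theorem DD_decay (h : TypeII L) (h8 : ∀ x ∈ L, x ≠ 0 → (8 : ℝ) ≤ inner ℝ x x) {w w' : V}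
    (hw : ‖w‖ = ‖w'‖) (K : ℕ) :
    ∃ C : ℝ, ∀ τ : ℂ, 1 ≤ τ.im → ‖DD L w w' K τ‖ ≤ C * Real.exp (-8 * Real.pi * τ.im) := by
  refine ⟨∑' x : L, 2 * (K.factorial : ℝ) * Real.exp (8 * Real.pi) *
    Real.exp (‖w‖ * ‖(x : V)‖ - Real.pi * ‖(x : V)‖ ^ 2), fun τ hτ => ?_⟩
  have hs : Summable fun x : L => 2 * (K.factorial : ℝ) * Real.exp (8 * Real.pi) *
    Real.exp (‖w‖ * ‖(x : V)‖ - Real.pi * ‖(x : V)‖ ^ 2) :=
    (t_SUM L h Real.pi ‖w‖ Real.pi_pos).mul_left _
  rw [← tsum_mul_right, DD_eq]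
  refine tsum_of_norm_bounded (hs.mul_right _).hasSum fun x => ?_
  by_cases hx : (x : V) = 0
  · rw [hx]
    simp only [inner_zero_right, sub_self, zero_mul, norm_zero]
    positivity
  · have hx8 := h8 x x.2 hx
    rw [real_inner_self_eq_norm_sq] at hx8
    rw [norm_mul, norm_qt]
    calc ‖((inner ℝ w (x : V) : ℝ) : ℂ) ^ K - ((inner ℝ w' (x : V) : ℝ) : ℂ) ^ K‖ *
          Real.exp (-(Real.pi * τ.im * ‖(x : V)‖ ^ 2))
        ≤ ((2 * K.factorial) * Real.exp (‖w‖ * ‖(x : V)‖)) *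
          Real.exp (8 * Real.pi - Real.pi * ‖(x : V)‖ ^ 2 + -8 * Real.pi * τ.im) := by
          refine mul_le_mul (diff_bound hw K (x : V)) ?_ (Real.exp_pos _).le (by positivity)
          apply Real.exp_le_exp.2
          have h1 : 0 ≤ Real.pi * ((τ.im - 1) * (‖(x : V)‖ ^ 2 - 8)) :=
            mul_nonneg Real.pi_pos.le (mul_nonneg (by linarith) (by linarith))
          nlinarith
      _ = _ := by
          rw [Real.exp_add, Real.exp_sub (8 * Real.pi), Real.exp_sub (‖w‖ * ‖(x : V)‖)]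
          ring

theorem DD_zero (hI : S_INV) (hSt : S_STURM) (h : TypeII L)
    (h8 : ∀ x ∈ L, x ≠ 0 → (8 : ℝ) ≤ inner ℝ x x) {w w' : V} (hw : ‖w‖ = ‖w'‖) :
    ∀ K : ℕ, K ≤ 11 → ∀ τ : ℂ, 0 < τ.im → DD L w w' K τ = 0 := by
  intro K
  induction K using Nat.strong_induction_on with
  | _ K ih =>
    intro hK
    refine hSt (36 + K) (DD L w w' K) (by omega) (DD_diff h hw K)
      (fun τ _ => DD_add_one h w w' K τ) ?_ (DD_decay h h8 hw K)
    exact t_FE hI L h w w' hw K (fun j hj => ih j hj (by omega))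

theorem t_DES (hI : S_INV) (hSt : S_STURM) (hC : S_COEF) : S_DES := by
  intro L h h8 m hf j hj w
  refine t_MOM hf.toFinset m (fun x hx => ((hf.mem_toFinset).1 hx).2) ?_ j hj w
  intro K hK w w' hw
  have h1 := hC L h (fun x => ((inner ℝ w x : ℝ) : ℂ) ^ K - ((inner ℝ w' x : ℝ) : ℂ) ^ K) ?_
    (DD_zero hI hSt h h8 hw K (by omega)) m hf
  · rw [Finset.sum_sub_distrib, sub_eq_zero] at h1
    exact_mod_cast h1
  · refine ⟨2 * (‖w‖ ^ K * K.factorial), fun x => ?_⟩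
    have hb : ∀ u : V, ‖((inner ℝ u x : ℝ) : ℂ) ^ K‖ ≤ ‖u‖ ^ K * K.factorial * Real.exp ‖x‖ := by
      intro u
      rw [norm_pow, Complex.norm_real, Real.norm_eq_abs]
      have h3 : ‖x‖ ^ K / K.factorial ≤ Real.exp ‖x‖ :=
        Real.pow_div_factorial_le_exp _ (norm_nonneg _) K
      rw [div_le_iff₀ (by positivity)] at h3
      calc |inner ℝ u x| ^ K ≤ (‖u‖ * ‖x‖) ^ K := by
            gcongr
            exact abs_real_inner_le_norm u x
        _ = ‖u‖ ^ K * ‖x‖ ^ K := mul_pow _ _ _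
        _ ≤ ‖u‖ ^ K * (Real.exp ‖x‖ * K.factorial) := by gcongr
        _ = _ := by ring
    have h1 := hb w
    have h2 := hb w'
    rw [← hw] at h2
    refine (norm_sub_le _ _).trans ?_
    linarith

end Pool.Agent.Q248.L72
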