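import Pool.Agent.Q248.L72.Sum

/-!
# The functional equation of the first nonvanishing difference of moments
-/

set_option autoImplicit false

open Complex Filter Topology

namespace Pool.Agent.Q248.L72

/-- the term of the theta series -/
noncomputable def qt (τ : ℂ) (x : V) : ℂ :=
  cexp (Real.pi * I * τ * ((inner ℝ x x : ℝ) : ℂ))

theorem norm_qt (τ : ℂ) (x : V) : ‖qt τ x‖ = Real.exp (-(Real.pi * τ.im * ‖x‖ ^ 2)) := by
  unfold qt
  rw [Complex.norm_exp]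
  congr 1
  rw [real_inner_self_eq_norm_sq]
  rw [show (Real.pi : ℂ) * I * τ * ((‖x‖ ^ 2 : ℝ) : ℂ) =
    ((Real.pi * ‖x‖ ^ 2 : ℝ) : ℂ) * (I * τ) by push_cast; ring, Complex.re_ofReal_mul]
  simp
  ring

variable {L : Submodule ℤ V}

theorem summable_q (h : TypeII L) {τ : ℂ} (hτ : 0 < τ.im) {g : L → ℂ} {C A : ℝ}
    (hg : ∀ x : L, ‖g x‖ ≤ C * Real.exp (A * ‖(x : V)‖)) :
    Summable fun x : L => g x * qt τ x := by
  refine Summable.of_norm_bounded
    ((t_SUM L h (Real.pi * τ.im) A (by positivity)).mul_left C) fun x => ?_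
  rw [norm_mul, norm_qt, Real.exp_sub, div_eq_mul_inv, ← Real.exp_neg, ← mul_assoc]
  exact mul_le_mul_of_nonneg_right (hg x) (Real.exp_pos _).le

theorem norm_q_le (h : TypeII L) {τ : ℂ} (hτ : 0 < τ.im) {g : L → ℂ} {C A : ℝ}
    (hg : ∀ x : L, ‖g x‖ ≤ C * Real.exp (A * ‖(x : V)‖)) :
    ‖∑' x : L, g x * qt τ x‖ ≤
      C * ∑' x : L, Real.exp (A * ‖(x : V)‖ - Real.pi * τ.im * ‖(x : V)‖ ^ 2) := by
  rw [← tsum_mul_left]
  refine tsum_of_norm_bounded
    ((t_SUM L h (Real.pi * τ.im) A (by positivity)).mul_left C).hasSum fun x => ?_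
  rw [norm_mul, norm_qt, Real.exp_sub, div_eq_mul_inv, ← Real.exp_neg, ← mul_assoc]
  exact mul_le_mul_of_nonneg_right (hg x) (Real.exp_pos _).le

/-- the generating function of all differences -/
noncomputable def FF (L : Submodule ℤ V) (w w' : V) (τ c : ℂ) (v : ℝ) : ℂ :=
  ∑' x : L, (cexp (c * v * ((inner ℝ w (x : V) : ℝ) : ℂ)) -
    cexp (c * v * ((inner ℝ w' (x : V) : ℝ) : ℂ))) * qt τ x

theorem norm_arg_le (w x : V) (c : ℂ) (v : ℝ) :
    ‖c * v * ((inner ℝ w x : ℝ) : ℂ)‖ ≤ |v| * (‖c‖ * ‖w‖ * ‖x‖) := by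
  rw [norm_mul, norm_mul, Complex.norm_real, Complex.norm_real, Real.norm_eq_abs, Real.norm_eq_abs]
  have h1 := abs_real_inner_le_norm w x
  calc ‖c‖ * |v| * |inner ℝ w x| ≤ ‖c‖ * |v| * (‖w‖ * ‖x‖) := by gcongr
    _ = _ := by ring

/-- remainder of the exponential series, uniformly for `|v| ≤ 1` -/
theorem rem_le (w x : V) (c : ℂ) {v : ℝ} (hv : |v| ≤ 1) (n : ℕ) :
    ‖cexp (c * v * ((inner ℝ w x : ℝ) : ℂ)) -
      ∑ m ∈ Finset.range n, (c * v * ((inner ℝ w x : ℝ) : ℂ)) ^ m / m.factorial‖ ≤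
    |v| ^ n * n.factorial * Real.exp (2 * (‖c‖ * ‖w‖) * ‖x‖) := by
  have h1 := Complex.norm_exp_sub_sum_le_norm_mul_exp (c * v * ((inner ℝ w x : ℝ) : ℂ)) n
  refine h1.trans ?_
  have h2 := norm_arg_le w x c v
  set y : ℝ := ‖c‖ * ‖w‖ * ‖x‖ with hy
  have hy0 : 0 ≤ y := by positivity
  have h3 : y ^ n / n.factorial ≤ Real.exp y := Real.pow_div_factorial_le_exp y hy0 n
  have h4 : y ^ n ≤ n.factorial * Real.exp y := by
    rw [div_le_iff₀ (by positivity)] at h3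
    linarith
  have h5 : |v| * y ≤ y := by nlinarith
  calc ‖c * v * ((inner ℝ w x : ℝ) : ℂ)‖ ^ n * Real.exp ‖c * v * ((inner ℝ w x : ℝ) : ℂ)‖
      ≤ (|v| * y) ^ n * Real.exp y := by
        gcongr
        exact h2.trans h5
    _ = |v| ^ n * y ^ n * Real.exp y := by ring
    _ ≤ |v| ^ n * (n.factorial * Real.exp y) * Real.exp y := by gcongr
    _ = |v| ^ n * n.factorial * Real.exp (2 * (‖c‖ * ‖w‖) * ‖x‖) := by
        rw [show 2 * (‖c‖ * ‖w‖) * ‖x‖ = y + y by rw [hy]; ring, Real.exp_add]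
        ring

theorem DD_eq (w w' : V) (K : ℕ) (τ : ℂ) : DD L w w' K τ =
    ∑' x : L, (((inner ℝ w (x : V) : ℝ) : ℂ) ^ K - ((inner ℝ w' (x : V) : ℝ) : ℂ) ^ K) * qt τ x :=
  rfl

theorem pow_bound (w x : V) (K : ℕ) :
    ‖((inner ℝ w x : ℝ) : ℂ) ^ K‖ ≤ K.factorial * Real.exp (‖w‖ * ‖x‖) := by
  rw [norm_pow, Complex.norm_real, Real.norm_eq_abs]
  have h1 := abs_real_inner_le_norm w x
  have h3 : (‖w‖ * ‖x‖) ^ K / K.factorial ≤ Real.exp (‖w‖ * ‖x‖) :=
    Real.pow_div_factorial_le_exp _ (by positivity) K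
  rw [div_le_iff₀ (by positivity)] at h3
  calc |inner ℝ w x| ^ K ≤ (‖w‖ * ‖x‖) ^ K := by gcongr
    _ ≤ _ := by linarith

theorem diff_bound {w w' : V} (hw : ‖w‖ = ‖w'‖) (K : ℕ) (x : V) :
    ‖((inner ℝ w x : ℝ) : ℂ) ^ K - ((inner ℝ w' x : ℝ) : ℂ) ^ K‖ ≤
      (2 * K.factorial) * Real.exp (‖w‖ * ‖x‖) := by
  have h1 := pow_bound w x K
  have h2 := pow_bound w' x K
  rw [← hw] at h2
  calc _ ≤ ‖((inner ℝ w x : ℝ) : ℂ) ^ K‖ + ‖((inner ℝ w' x : ℝ) : ℂ) ^ K‖ := norm_sub_le _ _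
    _ ≤ _ := by linarith

/-- the expansion of `FF` at `v = 0` -/
theorem FF_expand (h : TypeII L) {w w' : V} (hw : ‖w‖ = ‖w'‖) {K : ℕ} {τ : ℂ} (hτ : 0 < τ.im)
    (hD : ∀ j < K, DD L w w' j τ = 0) (c : ℂ) :
    ∃ B : ℝ, ∀ v : ℝ, |v| ≤ 1 →
      ‖FF L w w' τ c v - (c * v) ^ K / K.factorial * DD L w w' K τ‖ ≤ B * |v| ^ (K + 1) := by
  refine ⟨2 * (K + 1).factorial * ∑' x : L,
    Real.exp (2 * (‖c‖ * ‖w‖) * ‖(x : V)‖ - Real.pi * τ.im * ‖(x : V)‖ ^ 2), fun v hv => ?_⟩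
  -- the remainder
  set R : L → ℂ := fun x =>
    (cexp (c * v * ((inner ℝ w (x : V) : ℝ) : ℂ)) -
      ∑ m ∈ Finset.range (K + 1), (c * v * ((inner ℝ w (x : V) : ℝ) : ℂ)) ^ m / m.factorial) -
    (cexp (c * v * ((inner ℝ w' (x : V) : ℝ) : ℂ)) -
      ∑ m ∈ Finset.range (K + 1), (c * v * ((inner ℝ w' (x : V) : ℝ) : ℂ)) ^ m / m.factorial)
    with hR
  have hRb : ∀ x : L, ‖R x‖ ≤ (2 * (K + 1).factorial * |v| ^ (K + 1)) *
      Real.exp (2 * (‖c‖ * ‖w‖) * ‖(x : V)‖) := by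
    intro x
    have h1 := rem_le w (x : V) c hv (K + 1)
    have h2 := rem_le w' (x : V) c hv (K + 1)
    rw [← hw] at h2
    refine (norm_sub_le _ _).trans ?_
    linarith
  have hRs := summable_q h hτ hRb
  have hDs : ∀ m : ℕ, Summable fun x : L =>
      (((inner ℝ w (x : V) : ℝ) : ℂ) ^ m - ((inner ℝ w' (x : V) : ℝ) : ℂ) ^ m) * qt τ x :=
    fun m => summable_q h hτ (fun x => diff_bound hw m (x : V))
  have hFF : FF L w w' τ c v = ∑' x : L, R x * qt τ x +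
      ∑ m ∈ Finset.range (K + 1), (c * v) ^ m / m.factorial * DD L w w' m τ := by
    have h1 : ∀ m : ℕ, (c * v) ^ m / m.factorial * DD L w w' m τ = ∑' x : L,
        ((c * v) ^ m / m.factorial * ((((inner ℝ w (x : V) : ℝ) : ℂ) ^ m -
          ((inner ℝ w' (x : V) : ℝ) : ℂ) ^ m) * qt τ x)) := fun m => by
      rw [DD_eq, tsum_mul_left]
    rw [Finset.sum_congr rfl fun m _ => h1 m, ← Summable.tsum_finsetSum
      (fun m _ => (hDs m).mul_left _), ← hRs.tsum_add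
      (summable_sum fun m _ => (hDs m).mul_left _)]
    unfold FF
    refine tsum_congr fun x => ?_
    have h2 : ∑ m ∈ Finset.range (K + 1), ((c * v) ^ m / m.factorial *
        ((((inner ℝ w (x : V) : ℝ) : ℂ) ^ m - ((inner ℝ w' (x : V) : ℝ) : ℂ) ^ m) * qt τ x)) =
        (∑ m ∈ Finset.range (K + 1), (c * v * ((inner ℝ w (x : V) : ℝ) : ℂ)) ^ m / m.factorial -
        ∑ m ∈ Finset.range (K + 1), (c * v * ((inner ℝ w' (x : V) : ℝ) : ℂ)) ^ m / m.factorial) *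
        qt τ x := by
      rw [← Finset.sum_sub_distrib, Finset.sum_mul]
      refine Finset.sum_congr rfl fun m _ => ?_
      rw [mul_pow (c * (v : ℂ)), mul_pow (c * (v : ℂ))]
      ring
    rw [h2, hR]
    simp only
    ring
  have hsum : ∑ m ∈ Finset.range (K + 1), (c * v) ^ m / m.factorial * DD L w w' m τ =
      (c * v) ^ K / K.factorial * DD L w w' K τ := by
    rw [Finset.sum_range_succ, Finset.sum_eq_zero, zero_add]
    intro m hm
    rw [hD m (Finset.mem_range.1 hm), mul_zero]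
  rw [hFF, hsum, add_sub_cancel_right]
  refine (norm_q_le h hτ hRb).trans (le_of_eq ?_)
  ring

theorem FF_tendsto (h : TypeII L) {w w' : V} (hw : ‖w‖ = ‖w'‖) {K : ℕ} {τ : ℂ} (hτ : 0 < τ.im)
    (hD : ∀ j < K, DD L w w' j τ = 0) (c : ℂ) :
    Tendsto (fun v : ℝ => FF L w w' τ c v / (v : ℂ) ^ K) (𝓝[≠] 0)
      (𝓝 (c ^ K / K.factorial * DD L w w' K τ)) := by
  obtain ⟨B, hB⟩ := FF_expand h hw hτ hD c
  rw [tendsto_iff_norm_sub_tendsto_zero]
  have hlim : Tendsto (fun v : ℝ => B * |v|) (𝓝[≠] 0) (𝓝 0) := by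
    have : Tendsto (fun v : ℝ => B * |v|) (𝓝 0) (𝓝 (B * |(0 : ℝ)|)) :=
      (continuous_const.mul continuous_abs).tendsto 0
    rw [abs_zero, mul_zero] at this
    exact this.mono_left nhdsWithin_le_nhds
  refine squeeze_zero' (Eventually.of_forall fun _ => norm_nonneg _) ?_ hlim
  have h1 : ∀ᶠ v : ℝ in 𝓝[≠] 0, |v| ≤ 1 := by
    refine (eventually_nhdsWithin_of_eventually_nhds ?_)
    have : ∀ᶠ v : ℝ in 𝓝 0, |v| < 1 := by
      have := (continuous_abs (G := ℝ)).tendsto 0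
      rw [abs_zero] at this
      exact this.eventually (gt_mem_nhds one_pos)
    exact this.mono fun v hv => hv.le
  filter_upwards [h1, self_mem_nhdsWithin] with v hv hv0
  have hv1 : (v : ℝ) ≠ 0 := hv0
  have hvc : (v : ℂ) ^ K ≠ 0 := pow_ne_zero _ (by exact_mod_cast hv1)
  have h2 := hB v hv
  have h3 : FF L w w' τ c v / (v : ℂ) ^ K - c ^ K / K.factorial * DD L w w' K τ =
      (FF L w w' τ c v - (c * v) ^ K / K.factorial * DD L w w' K τ) / (v : ℂ) ^ K := by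
    rw [mul_pow]
    field_simp
  rw [h3, norm_div, norm_pow, Complex.norm_real, Real.norm_eq_abs]
  rw [div_le_iff₀ (by positivity)]
  refine h2.trans (le_of_eq ?_)
  ring

/-- theta inversion for the generating functions -/
theorem FF_inv (hI : S_INV) (h : TypeII L) {w w' : V} (hw : ‖w‖ = ‖w'‖) {τ : ℂ} (hτ : 0 < τ.im)
    (v : ℝ) : FF L w w' τ (2 * Real.pi * I) v = (τ ^ 36)⁻¹ *
      cexp (-(Real.pi * I * (v : ℂ) ^ 2 * (‖w‖ : ℂ) ^ 2 / τ)) *
      FF L w w' (-1 / τ) (2 * Real.pi * I / τ) v := by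
  have hτ0 : τ ≠ 0 := by
    intro h0
    rw [h0] at hτ
    simp at hτ
  have hτ' : 0 < (-1 / τ).im := by
    rw [Complex.div_im]
    simp only [Complex.neg_im, Complex.one_im, neg_zero, zero_mul, zero_div, Complex.neg_re,
      Complex.one_re, neg_mul, one_mul, zero_sub]
    have : 0 < Complex.normSq τ := Complex.normSq_pos.2 hτ0
    rw [neg_div, neg_neg]
    positivity
  have hexp : ∀ (u : V) (σ c : ℂ), 0 < σ.im → Summable fun x : L =>
      cexp (c * v * ((inner ℝ u (x : V) : ℝ) : ℂ)) * qt σ x := by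
    intro u σ c hσ
    refine summable_q (C := 1) (A := ‖c‖ * |v| * ‖u‖) h hσ fun x => ?_
    rw [one_mul, Complex.norm_exp]
    apply Real.exp_le_exp.2
    refine (Complex.re_le_norm _).trans ((norm_arg_le u (x : V) c v).trans (le_of_eq ?_))
    ring
  have hFF : ∀ (σ c : ℂ), 0 < σ.im → FF L w w' σ c v =
      ∑' x : L, cexp (c * v * ((inner ℝ w (x : V) : ℝ) : ℂ)) * qt σ x -
      ∑' x : L, cexp (c * v * ((inner ℝ w' (x : V) : ℝ) : ℂ)) * qt σ x := by
    intro σ c hσ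
    rw [← (hexp w σ c hσ).tsum_sub (hexp w' σ c hσ)]
    unfold FF
    refine tsum_congr fun x => ?_
    ring
  have hone : ∀ u : V, ∑' x : L, cexp (2 * Real.pi * I * v * ((inner ℝ u (x : V) : ℝ) : ℂ)) * qt τ x =
      (τ ^ 36)⁻¹ * cexp (-(Real.pi * I * (v : ℂ) ^ 2 * (‖u‖ : ℂ) ^ 2 / τ)) *
      ∑' x : L, cexp (2 * Real.pi * I / τ * v * ((inner ℝ u (x : V) : ℝ) : ℂ)) * qt (-1 / τ) x := by
    intro u
    have h1 := hI L h (v • u) τ hτ
    have e1 : ∀ x : L, cexp (Real.pi * I * τ * ((inner ℝ (x : V) (x : V) : ℝ) : ℂ) +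
        2 * Real.pi * I * ((inner ℝ (v • u) (x : V) : ℝ) : ℂ)) =
        cexp (2 * Real.pi * I * v * ((inner ℝ u (x : V) : ℝ) : ℂ)) * qt τ x := by
      intro x
      unfold qt
      rw [← Complex.exp_add, real_inner_smul_left]
      congr 1
      push_cast
      ring
    have e2 : ∀ x : L, cexp (Real.pi * I * (-1 / τ) *
        ((inner ℝ ((x : V) - v • u) ((x : V) - v • u) : ℝ) : ℂ)) =
        cexp (-(Real.pi * I * (v : ℂ) ^ 2 * (‖u‖ : ℂ) ^ 2 / τ)) *
        (cexp (2 * Real.pi * I / τ * v * ((inner ℝ u (x : V) : ℝ) : ℂ)) * qt (-1 / τ) x) := by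
      intro x
      unfold qt
      rw [← Complex.exp_add, ← Complex.exp_add, inner_sub_left, inner_sub_right, inner_sub_right,
        real_inner_smul_left, real_inner_smul_left, real_inner_smul_right, real_inner_smul_right,
        real_inner_self_eq_norm_sq u, real_inner_comm u (x : V)]
      congr 1
      push_cast
      field_simp
      ring
    rw [tsum_congr e1, tsum_congr e2, tsum_mul_left] at h1
    rw [h1]
    ring
  rw [hFF _ _ hτ, hFF _ _ hτ', hone w, hone w', ← hw]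
  ring

theorem t_FE (hI : S_INV) : S_FE := by
  intro L h w w' hw K hD τ hτ
  have hτ0 : τ ≠ 0 := by
    intro h0
    rw [h0] at hτ
    simp at hτ
  have hτ' : 0 < (-1 / τ).im := by
    rw [Complex.div_im]
    simp only [Complex.neg_im, Complex.one_im, neg_zero, zero_mul, zero_div, Complex.neg_re,
      Complex.one_re, neg_mul, one_mul, zero_sub]
    have : 0 < Complex.normSq τ := Complex.normSq_pos.2 hτ0
    rw [neg_div, neg_neg]
    positivity
  have h1 := FF_tendsto h hw hτ (fun j hj => hD j hj τ hτ) (2 * Real.pi * I)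
  have h2 := FF_tendsto h hw hτ' (fun j hj => hD j hj _ hτ') (2 * Real.pi * I / τ)
  have h3 : Tendsto (fun v : ℝ => (τ ^ 36)⁻¹ *
      cexp (-(Real.pi * I * (v : ℂ) ^ 2 * (‖w‖ : ℂ) ^ 2 / τ))) (𝓝[≠] 0) (𝓝 ((τ ^ 36)⁻¹)) := by
    have hc : Continuous fun v : ℝ => (τ ^ 36)⁻¹ *
      cexp (-(Real.pi * I * (v : ℂ) ^ 2 * (‖w‖ : ℂ) ^ 2 / τ)) := by fun_prop
    have := hc.tendsto 0
    simp only [Complex.ofReal_zero, ne_eq, OfNat.ofNat_ne_zero, not_false_eq_true, zero_pow,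
      mul_zero, zero_mul, zero_div, neg_zero, Complex.exp_zero, mul_one] at this
    exact this.mono_left nhdsWithin_le_nhds
  have h4 := h3.mul h2
  have h5 : (fun v : ℝ => (τ ^ 36)⁻¹ *
      cexp (-(Real.pi * I * (v : ℂ) ^ 2 * (‖w‖ : ℂ) ^ 2 / τ)) *
      (FF L w w' (-1 / τ) (2 * Real.pi * I / τ) v / (v : ℂ) ^ K)) =
      fun v : ℝ => FF L w w' τ (2 * Real.pi * I) v / (v : ℂ) ^ K := by
    funext v
    rw [FF_inv hI h hw hτ v]
    ring
  rw [h5] at h4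
  have h6 := tendsto_nhds_unique h1 h4
  have hK : ((K.factorial : ℕ) : ℂ) ≠ 0 := by exact_mod_cast K.factorial_ne_zero
  have hpi : (2 * Real.pi * I : ℂ) ^ K ≠ 0 := by
    apply pow_ne_zero
    simp [Real.pi_ne_zero]
  have h7 : (2 * Real.pi * I : ℂ) ^ K / K.factorial * (τ ^ (36 + K) * DD L w w' K τ) =
      (2 * Real.pi * I : ℂ) ^ K / K.factorial * DD L w w' K (-1 / τ) := by
    calc (2 * Real.pi * I : ℂ) ^ K / K.factorial * (τ ^ (36 + K) * DD L w w' K τ) =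
        τ ^ (36 + K) * ((2 * Real.pi * I : ℂ) ^ K / K.factorial * DD L w w' K τ) := by ring
      _ = _ := by
        rw [h6, div_pow, pow_add]
        field_simp
  exact (mul_left_cancel₀ (div_ne_zero hpi hK) h7).symm

end Pool.Agent.Q248.L72
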