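import Mathlib

/-!
# Extremal even unimodular lattices of rank 72: statements

Plan of the proof that the vectors of norm `12` generate every extremal even unimodular lattice `L`
of rank `72`.

* `S_SUM`: `∑ exp (c |x| - a |x|²)` over `x ∈ L` converges.
* `S_INV`: theta inversion for `L`, from `Pool.Agent.Y773.poisson`.
* `S_FE`: if the moments of order `< K` of the shells do not distinguish `w` and `w'` (of the same
  length), then the generating function of the differences of the `K`-th moments is modular of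
  weight `36 + K`.
* `S_STURM`: Sturm bound.
* `S_COEF`: coefficients of a theta series which vanishes.
* `S_MOM`: moments of a finite set on a sphere, which do not depend on the direction.
-/

set_option autoImplicit false

open Complex

namespace Pool.Agent.Q248.L72

/-- Euclidean space of dimension 72 -/
abbrev V : Type := EuclideanSpace ℝ (Fin 72)

/-- even unimodular lattices of rank 72 -/
structure TypeII (L : Submodule ℤ V) : Prop where
  discrete : DiscreteTopology L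
  full : IsZLattice ℝ L
  even : ∀ x ∈ L, ∃ k : ℤ, inner ℝ x x = 2 * (k : ℝ)
  dual : ∀ y : V, y ∈ L ↔ ∀ x ∈ L, ∃ k : ℤ, inner ℝ x y = (k : ℝ)

/-- the shell of norm `m` -/
def shell (L : Submodule ℤ V) (m : ℝ) : Set V := {x | x ∈ L ∧ inner ℝ x x = m}

/-- the generating function of the differences of the moments of order `K` of the shells, in the
directions `w` and `w'` -/
noncomputable def DD (L : Submodule ℤ V) (w w' : V) (K : ℕ) (τ : ℂ) : ℂ :=
  ∑' x : L, (((inner ℝ w (x : V) : ℝ) : ℂ) ^ K - ((inner ℝ w' (x : V) : ℝ) : ℂ) ^ K) *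
    cexp (Real.pi * I * τ * ((inner ℝ (x : V) (x : V) : ℝ) : ℂ))

/-- convergence -/
def S_SUM : Prop := ∀ L : Submodule ℤ V, TypeII L → ∀ a c : ℝ, 0 < a →
  Summable fun x : L => Real.exp (c * ‖(x : V)‖ - a * ‖(x : V)‖ ^ 2)

/-- theta inversion -/
def S_INV : Prop := ∀ L : Submodule ℤ V, TypeII L → ∀ (w : V) (τ : ℂ), 0 < τ.im →
  ∑' x : L, cexp (Real.pi * I * τ * ((inner ℝ (x : V) (x : V) : ℝ) : ℂ) +
      2 * Real.pi * I * ((inner ℝ w (x : V) : ℝ) : ℂ)) =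
    (τ ^ 36)⁻¹ * ∑' x : L, cexp (Real.pi * I * (-1 / τ) *
      ((inner ℝ ((x : V) - w) ((x : V) - w) : ℝ) : ℂ))

/-- the functional equation of the first nonvanishing difference -/
def S_FE : Prop := ∀ L : Submodule ℤ V, TypeII L → ∀ w w' : V, ‖w‖ = ‖w'‖ → ∀ K : ℕ,
  (∀ j < K, ∀ τ : ℂ, 0 < τ.im → DD L w w' j τ = 0) →
  ∀ τ : ℂ, 0 < τ.im → DD L w w' K (-1 / τ) = τ ^ (36 + K) * DD L w w' K τ

/-- level one forms of weight `< 48` which vanish to order four at infinity are zero -/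
def S_STURM : Prop := ∀ (k : ℕ) (f : ℂ → ℂ), k < 48 →
  DifferentiableOn ℂ f {τ : ℂ | 0 < τ.im} →
  (∀ τ : ℂ, 0 < τ.im → f (τ + 1) = f τ) →
  (∀ τ : ℂ, 0 < τ.im → f (-1 / τ) = τ ^ k * f τ) →
  (∃ C : ℝ, ∀ τ : ℂ, 1 ≤ τ.im → ‖f τ‖ ≤ C * Real.exp (-8 * Real.pi * τ.im)) →
  ∀ τ : ℂ, 0 < τ.im → f τ = 0

/-- the shells are finite -/
def S_FIN : Prop := ∀ L : Submodule ℤ V, TypeII L → ∀ m : ℝ, (shell L m).Finite

/-- the coefficients of a vanishing theta series -/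
def S_COEF : Prop := ∀ L : Submodule ℤ V, TypeII L → ∀ c : V → ℂ,
  (∃ C : ℝ, ∀ x : V, ‖c x‖ ≤ C * Real.exp ‖x‖) →
  (∀ τ : ℂ, 0 < τ.im →
    ∑' x : L, c x * cexp (Real.pi * I * τ * ((inner ℝ (x : V) (x : V) : ℝ) : ℂ)) = 0) →
  ∀ (m : ℝ) (hf : (shell L m).Finite), ∑ x ∈ hf.toFinset, c x = 0

/-- finite sets on a sphere whose moments of order `≤ 10` do not depend on the direction -/
def S_MOM : Prop := ∀ (X : Finset V) (m : ℝ), (∀ x ∈ X, inner ℝ x x = m) →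
  (∀ K : ℕ, K ≤ 10 → ∀ w w' : V, ‖w‖ = ‖w'‖ →
    ∑ x ∈ X, (inner ℝ w x : ℝ) ^ K = ∑ x ∈ X, (inner ℝ w' x : ℝ) ^ K) →
  ∀ j : ℕ, j ≤ 5 → ∀ w : V, ∑ x ∈ X, (inner ℝ w x : ℝ) ^ (2 * j) =
    X.card * (m * inner ℝ w w) ^ j *
      ∏ i ∈ Finset.range j, ((2 * (i : ℝ) + 1) / (72 + 2 * (i : ℝ)))

/-- the moments of the shells of an extremal lattice -/
def S_DES : Prop := ∀ L : Submodule ℤ V, TypeII L → (∀ x ∈ L, x ≠ 0 → (8 : ℝ) ≤ inner ℝ x x) →
  ∀ (m : ℝ) (hf : (shell L m).Finite), ∀ j : ℕ, j ≤ 5 → ∀ w : V,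
    ∑ x ∈ hf.toFinset, (inner ℝ w x : ℝ) ^ (2 * j) =
    hf.toFinset.card * (m * inner ℝ w w) ^ j *
      ∏ i ∈ Finset.range j, ((2 * (i : ℝ) + 1) / (72 + 2 * (i : ℝ)))

end Pool.Agent.Q248.L72
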