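import Pool.Agent.Q248.L72.Stm
import Pool.Agent.Y773.Pois

/-!
# Extremal even unimodular lattices of rank 72: convergence and finiteness
-/

set_option autoImplicit false

open Complex Module

namespace Pool.Agent.Q248.L72

open Pool.Agent.Y773

/-- coordinates on a lattice -/
theorem exists_basis (L : Submodule ℤ V) (h : TypeII L) :
    ∃ (b : Basis (Fin 72) ℤ L) (e : Basis (Fin 72) ℝ V), ∀ i, e i = (b i : V) := by
  have := h.discrete
  have := h.full
  have : Module.Free ℤ L := ZLattice.module_free ℝ L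
  have : Module.Finite ℤ L := ZLattice.module_finite ℝ L
  let b0 := Module.Free.chooseBasis ℤ L
  have hc : Fintype.card (Module.Free.ChooseBasisIndex ℤ L) = 72 := by
    rw [← Module.finrank_eq_card_chooseBasisIndex, ZLattice.rank ℝ L]
    simp
  let b : Basis (Fin 72) ℤ L := b0.reindex (Fintype.equivFinOfCardEq hc)
  exact ⟨b, b.ofZLatticeBasis ℝ L, fun i => by simp⟩

theorem coe_equivFun (L : Submodule ℤ V) (b : Basis (Fin 72) ℤ L) (e : Basis (Fin 72) ℝ V)
    (he : ∀ i, e i = (b i : V)) (m : Fin 72 → ℤ) :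
    ((b.equivFun.symm m : L) : V) = e.equivFun.symm (lp m) := by
  rw [Basis.equivFun_symm_apply, Basis.equivFun_symm_apply]
  rw [AddSubmonoidClass.coe_finsetSum]
  refine Finset.sum_congr rfl fun i _ => ?_
  rw [he i]
  rw [show Y773.lp m i = ((m i : ℤ) : ℝ) from rfl, Int.cast_smul_eq_zsmul]
  rfl

theorem t_SUM : S_SUM := by
  intro L h a c ha
  obtain ⟨b, e, he⟩ := exists_basis L h
  let T : (Fin 72 → ℝ) ≃L[ℝ] V := e.equivFun.symm.toContinuousLinearEquiv
  set C : ℝ := ‖(T.symm : V →L[ℝ] (Fin 72 → ℝ))‖ + 1 with hCdef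
  have hC0 : 0 < C := by positivity
  have hC : ∀ t, ‖t‖ ≤ C * ‖T t‖ := by
    intro t
    have h1 := (T.symm : V →L[ℝ] (Fin 72 → ℝ)).le_opNorm (T t)
    have h2 : (T.symm : V →L[ℝ] (Fin 72 → ℝ)) (T t) = t := T.symm_apply_apply t
    rw [h2] at h1
    refine h1.trans (mul_le_mul_of_nonneg_right ?_ (norm_nonneg _))
    rw [hCdef]; linarith
  rw [← b.equivFun.symm.toEquiv.summable_iff]
  have hs := (summable_exp_int (ι := Fin 72) (c := a / (2 * C ^ 2)) (by positivity)).mul_left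
    (Real.exp (c ^ 2 / (2 * a)))
  refine Summable.of_nonneg_of_le (fun m => (Real.exp_pos _).le) (fun m => ?_) hs
  simp only [Function.comp_apply]
  have h1 : ((b.equivFun.symm.toEquiv m : L) : V) = T (lp m) := coe_equivFun L b e he m
  rw [h1]
  have h2 := hC (lp m)
  rw [← Real.exp_add]
  apply Real.exp_le_exp.2
  have h3 : ‖(lp m : Fin 72 → ℝ)‖ ^ 2 ≤ C ^ 2 * ‖T (lp m)‖ ^ 2 := by
    rw [← mul_pow]
    exact pow_le_pow_left₀ (norm_nonneg _) h2 2
  have h4 : a / (2 * C ^ 2) * ‖(lp m : Fin 72 → ℝ)‖ ^ 2 ≤ a / 2 * ‖T (lp m)‖ ^ 2 := by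
    calc a / (2 * C ^ 2) * ‖(lp m : Fin 72 → ℝ)‖ ^ 2
        ≤ a / (2 * C ^ 2) * (C ^ 2 * ‖T (lp m)‖ ^ 2) := by gcongr
      _ = _ := by field_simp
  have h5 : c * ‖T (lp m)‖ ≤ c ^ 2 / (2 * a) + a / 2 * ‖T (lp m)‖ ^ 2 := by
    have h6 : c ^ 2 / (2 * a) + a / 2 * ‖T (lp m)‖ ^ 2 - c * ‖T (lp m)‖ =
        (c - a * ‖T (lp m)‖) ^ 2 / (2 * a) := by field_simp; ring
    have h7 : 0 ≤ (c - a * ‖T (lp m)‖) ^ 2 / (2 * a) := by positivity
    linarith
  have h8 : (fun i => (m i : ℝ)) = (lp m : Fin 72 → ℝ) := rfl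
  rw [h8]
  linarith

theorem t_FIN : S_FIN := by
  intro L h m
  have := h.discrete
  have h1 : ((Metric.closedBall (0 : V) (Real.sqrt m)) ∩ (L : Set V)).Finite := by
    change ((_ : Set V) ∩ L.toAddSubgroup).Finite
    have : DiscreteTopology L.toAddSubgroup := (inferInstance : DiscreteTopology L)
    exact Metric.finite_isBounded_inter_isClosed DiscreteTopology.isDiscrete
      Metric.isBounded_closedBall inferInstance
  refine h1.subset fun x hx => ⟨?_, hx.1⟩
  rw [mem_closedBall_zero_iff]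
  apply Real.le_sqrt_of_sq_le
  rw [← real_inner_self_eq_norm_sq, hx.2]

end Pool.Agent.Q248.L72
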